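import Pool.Agent.MP_086a35_co.Mg.Close
import Pool.Agent.MP_086a35_co.Mg.Strip

set_option autoImplicit false

namespace Pool.Agent.Results.MP_086a35_co.RhombicStrip

open Pool.Agent.MP_086a35_co

/-- For every `n ≥ 7` the cover graph of the face lattice of the associahedron `A_n` admits a
rhombic strip. -/
theorem result : ∀ n : ℕ, 7 ≤ n →
    ∃ (R : SimpleGraph (Face n)) (pos : Face n → ℝ) (wind : Face n → Face n → ℤ),
      IsRhombicStrip (faceDim n) ((n : ℤ) - 3) R pos wind (coverGraph n) :=
  fun n hn => strip_of_walk n hn (closed_of_St n hn (St_main n hn))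

end Pool.Agent.Results.MP_086a35_co.RhombicStrip
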